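import Mathlib

set_option autoImplicit false

/-!
# The sumset of a set of coset type (MP_7e2af8_co)
-/

namespace Pool.Agent.Y417.NS

open Finset

theorem coset_exact (p : ℕ) [hp : Fact p.Prime] (hp3 : 3 ≤ p) (A : Finset (ZMod p × ZMod p))
    (hA : A.card = 2 * p - 2) (H : AddSubgroup (ZMod p × ZMod p)) (a : ZMod p × ZMod p)
    (A₁ A₂ : Finset (ZMod p × ZMod p)) (hH : Nat.card H = p) (ha : a ∉ H)
    (h1 : ∀ x ∈ A₁, x - a ∈ H) (h2 : ∀ x ∈ A₂, x + a ∈ H)
    (h3 : (A : Set (ZMod p × ZMod p)) = (H : Set (ZMod p × ZMod p)) ∪ A₁ ∪ A₂)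
    (g : ZMod p × ZMod p) :
    g ∉ A.subsetSum ↔ g - (A₁.card + 1) • a ∈ H := by
  classical
  let φ : (ZMod p × ZMod p) →+ (ZMod p × ZMod p) ⧸ H := QuotientAddGroup.mk' H
  have hφ : ∀ x, φ x = 0 ↔ x ∈ H := fun x => QuotientAddGroup.eq_zero_iff x
  obtain ⟨α, hα⟩ : ∃ α, α = φ a := ⟨_, rfl⟩
  have hα0 : α ≠ 0 := by
    rw [hα]
    exact fun h => ha ((hφ a).1 h)
  have hcG : Nat.card (ZMod p × ZMod p) = p * p := by
    rw [Nat.card_prod, Nat.card_zmod]
  have hcQ : Nat.card ((ZMod p × ZMod p) ⧸ H) = p := by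
    have h4 := AddSubgroup.card_eq_card_quotient_mul_card_addSubgroup H
    rw [hcG, hH] at h4
    exact (Nat.eq_of_mul_eq_mul_right hp.out.pos h4).symm
  have hpα : p • α = 0 := by
    rw [hα, ← map_nsmul]
    have : p • a = 0 := by
      ext <;> simp
    rw [this, map_zero]
  have hord : addOrderOf α = p := addOrderOf_eq_prime hpα hα0
  have hdvd : ∀ m : ℤ, m • α = 0 → (p : ℤ) ∣ m := by
    intro m hm
    rw [← hord]
    exact addOrderOf_dvd_iff_zsmul_eq_zero.2 hm
  have hmem : ∀ x : ZMod p × ZMod p, x ∈ A ↔ x ∈ H ∨ x ∈ A₁ ∨ x ∈ A₂ := by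
    intro x
    have : x ∈ (A : Set (ZMod p × ZMod p)) ↔ x ∈ (H : Set (ZMod p × ZMod p)) ∪ A₁ ∪ A₂ := by
      rw [h3]
    simp only [Set.mem_union, Finset.mem_coe, SetLike.mem_coe] at this
    tauto
  have hφ1 : ∀ x ∈ A₁, φ x = α := by
    intro x hx
    have := (hφ _).2 (h1 x hx)
    rw [map_sub, sub_eq_zero] at this
    rw [this, hα]
  have hφ2 : ∀ x ∈ A₂, φ x = -α := by
    intro x hx
    have := (hφ _).2 (h2 x hx)
    rw [map_add] at this
    rw [hα]
    exact eq_neg_of_add_eq_zero_left this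
  have hαα : α ≠ -α := by
    intro h
    have h4 : (2 : ℤ) • α = 0 := by
      rw [two_zsmul]
      nth_rewrite 1 [h]
      exact neg_add_cancel α
    have h5 := Int.le_of_dvd (by norm_num) (hdvd 2 h4)
    omega
  -- the cardinalities
  let Hf : Finset (ZMod p × ZMod p) := univ.filter (fun x => x ∈ H)
  have hHf : Hf.card = p := by
    have h4 : Nat.card H = Hf.card := by
      rw [Nat.card_eq_fintype_card, Fintype.card_subtype]
    exact h4.symm.trans hH
  have hd1 : Disjoint Hf A₁ := by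
    rw [Finset.disjoint_left]
    intro x hx hx1
    have h4 := (hφ x).2 (mem_filter.1 hx).2
    rw [hφ1 x hx1] at h4
    exact hα0 h4
  have hd2 : Disjoint (Hf ∪ A₁) A₂ := by
    rw [Finset.disjoint_left]
    intro x hx hx2
    have h5 := hφ2 x hx2
    rcases mem_union.1 hx with hx | hx
    · have h4 := (hφ x).2 (mem_filter.1 hx).2
      rw [h5, neg_eq_zero] at h4
      exact hα0 h4
    · have h4 := hφ1 x hx
      exact hαα (h4.symm.trans h5)
  have hAeq : A = Hf ∪ A₁ ∪ A₂ := by
    ext x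
    rw [hmem, mem_union, mem_union]
    simp only [Hf, mem_filter, mem_univ, true_and]
    tauto
  have hcard : A₁.card + A₂.card = p - 2 := by
    have h4 : A.card = p + A₁.card + A₂.card := by
      rw [hAeq, card_union_of_disjoint hd2, card_union_of_disjoint hd1, hHf]
    omega
  -- sums of subsets of the two cosets
  have hs1 : ∀ T ⊆ A₁, φ (∑ x ∈ T, x) = T.card • α := by
    intro T hT
    rw [map_sum, sum_congr rfl fun x hx => hφ1 x (hT hx), sum_const]
  have hs2 : ∀ T ⊆ A₂, φ (∑ x ∈ T, x) = -(T.card • α) := by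
    intro T hT
    rw [map_sum, sum_congr rfl fun x hx => hφ2 x (hT hx), sum_const, neg_nsmul]
  have hadd : ∀ T ⊆ A, Disjoint Hf T → φ (∑ x ∈ T, x) = φ g → g ∈ A.subsetSum := by
    intro T hT hd hsum
    have h4 : g - ∑ x ∈ T, x ∈ H := by
      rw [← hφ, map_sub, hsum, sub_self]
    rw [mem_subsetSum_iff]
    have h5 : g - ∑ x ∈ T, x ∉ T := by
      intro h6
      exact (Finset.disjoint_left.1 hd) (mem_filter.2 ⟨mem_univ _, h4⟩) h6
    refine ⟨insert (g - ∑ x ∈ T, x) T, ?_, ?_⟩
    · intro x hx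
      rcases mem_insert.1 hx with rfl | hx
      · exact (hmem _).2 (Or.inl h4)
      · exact hT hx
    · rw [sum_insert h5]
      exact sub_add_cancel _ _
  have hcrit : g - (A₁.card + 1) • a ∈ H ↔ φ g = (A₁.card + 1) • α := by
    rw [← hφ, map_sub, map_nsmul, sub_eq_zero, hα]
  rw [hcrit]
  constructor
  · intro hg
    by_contra hne
    apply hg
    obtain ⟨m, hm⟩ : ∃ m : ℤ, m • α = φ g := by
      have h4 := mem_zmultiples_of_prime_card hcQ hα0 (g' := φ g)
      exact AddSubgroup.mem_zmultiples_iff.1 h4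
    obtain ⟨n, hn, hnp⟩ : ∃ n : ℕ, n • α = φ g ∧ n < p := by
      have h4 : 0 ≤ m % p := Int.emod_nonneg _ (by exact_mod_cast hp.out.ne_zero)
      have h5 : m % p < p := Int.emod_lt_of_pos _ (by exact_mod_cast hp.out.pos)
      refine ⟨(m % p).toNat, ?_, by omega⟩
      rw [← natCast_zsmul, Int.toNat_of_nonneg h4, ← hm]
      have h6 : m % p = m - p * (m / p) := by
        have := Int.emod_add_mul_ediv m p
        linarith
      rw [h6, sub_zsmul, mul_comm, mul_zsmul, natCast_zsmul, hpα, zsmul_zero, neg_zero, add_zero]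
    have hnc : n ≠ A₁.card + 1 := by
      rintro rfl
      exact hne hn.symm
    rcases Nat.lt_or_ge A₁.card n with h4 | h4
    · -- use the second coset
      have h5 : p - n ≤ A₂.card := by omega
      obtain ⟨T, hT, hTc⟩ := exists_subset_card_eq h5
      refine hadd T (fun x hx => (hmem x).2 (Or.inr (Or.inr (hT hx)))) ?_ ?_
      · exact (hd2.mono_left subset_union_left).mono_right hT
      · rw [hs2 T hT, hTc, ← hn]
        have h6 : (p - n) • α + n • α = 0 := by
          rw [← add_nsmul, Nat.sub_add_cancel hnp.le, hpα]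
        exact neg_eq_of_add_eq_zero_right h6
    · obtain ⟨T, hT, hTc⟩ := exists_subset_card_eq h4
      refine hadd T (fun x hx => (hmem x).2 (Or.inr (Or.inl (hT hx)))) ?_ ?_
      · exact hd1.mono_right hT
      · rw [hs1 T hT, hTc, hn]
  · intro hg hgA
    obtain ⟨B, hB, hBs⟩ := mem_subsetSum_iff.1 hgA
    have h4 : φ g = ((B ∩ A₁).card : ℤ) • α - ((B ∩ A₂).card : ℤ) • α := by
      have h5 : B = (B ∩ Hf ∪ B ∩ A₁) ∪ B ∩ A₂ := by
        rw [← inter_union_distrib_left, ← inter_union_distrib_left, ← hAeq]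
        exact (inter_eq_left.2 hB).symm
      have h6 : Disjoint (B ∩ Hf ∪ B ∩ A₁) (B ∩ A₂) := by
        rw [← inter_union_distrib_left]
        exact (hd2.mono_left inter_subset_right).mono_right inter_subset_right
      have h7 : Disjoint (B ∩ Hf) (B ∩ A₁) :=
        (hd1.mono_left inter_subset_right).mono_right inter_subset_right
      have h8 : φ (∑ x ∈ B ∩ Hf, x) = 0 := by
        rw [map_sum]
        apply sum_eq_zero
        intro x hx
        exact (hφ x).2 (mem_filter.1 (mem_inter.1 hx).2).2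
      rw [← hBs]
      conv_lhs => rw [h5]
      rw [sum_union h6, sum_union h7, map_add, map_add, h8, hs1 _ inter_subset_right,
        hs2 _ inter_subset_right, zero_add, natCast_zsmul, natCast_zsmul, sub_eq_add_neg]
    have h5 : ((A₁.card : ℤ) + 1 - (B ∩ A₁).card + (B ∩ A₂).card) • α = 0 := by
      rw [add_zsmul, sub_zsmul]
      have h6 : ((A₁.card : ℤ) + 1) • α = φ g := by
        rw [hg, ← natCast_zsmul]
        push_cast
        rfl
      rw [h6, h4]
      abel
    have h6 := hdvd _ h5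
    have h7 : (B ∩ A₁).card ≤ A₁.card := card_le_card inter_subset_right
    have h8 : (B ∩ A₂).card ≤ A₂.card := card_le_card inter_subset_right
    have h9 := Int.le_of_dvd (by omega) h6
    omega

end Pool.Agent.Y417.NS
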